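import Mathlib

set_option autoImplicit false
set_option maxHeartbeats 400000

namespace Pool.Agent.H.MP_374aea_al

theorem norm_map {α β : Type} [DecidableEq α] [DecidableEq β] (f : FreeGroup α →* FreeGroup β) {C : ℕ}
    (h : ∀ i, (f (.of i)).norm ≤ C) (w : FreeGroup α) : (f w).norm ≤ C * w.norm := by
  have : ∀ l : List (α × Bool), (f (.mk l)).norm ≤ C * l.length := fun l => by
    induction l with
    | nil => simp [← FreeGroup.one_eq_mk]
    | cons x l ih =>
      rw [← List.singleton_append, ← FreeGroup.mul_mk, map_mul]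
      refine (FreeGroup.norm_mul_le _ _).trans ?_
      have : (f (.mk [x])).norm ≤ C := by
        obtain ⟨i, _ | _⟩ := x
        · rw [show FreeGroup.mk [(i, false)] = (FreeGroup.of i)⁻¹ from rfl, map_inv, FreeGroup.norm_inv_eq]
          exact h i
        · exact h i
      simp [mul_add]; omega
  simpa [FreeGroup.norm, FreeGroup.mk_toWord] using this w.toWord

theorem chain {α : Type} [Finite α] (S : ℕ → Set α) (h : ∀ n, S n ⊆ S (n + 1)) :
    ∃ n ≤ Nat.card α, S (n + 1) ⊆ S n := by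
  by_contra! a
  have : ∀ n ≤ Nat.card α + 1, n ≤ (S n).ncard := fun n => by
    induction n with
    | zero => simp
    | succ n ih => exact fun l => (ih (by omega)).trans_lt (Set.ncard_lt_ncard ⟨h n, a n (by omega)⟩)
  have := (this _ le_rfl).trans (Set.ncard_le_card _)
  omega

theorem crit {G ι : Type} [Group G] [Finite ι] [DecidableEq ι] (π' : FreeGroup ι →* G)
    (hs : Function.Surjective π')
    (H : ∀ C r : ℕ, ∃ (E : Type) (_ : Group E) (_ : Finite E) (θ : FreeGroup ι →* E),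
      (∀ w, π' w = 1 → w.norm ≤ C ^ (Nat.card E ^ r + 2) → θ w = 1) ∧ ∃ w, π' w = 1 ∧ θ w ≠ 1)
    (m : ℕ) (Q R : Finset (FreeGroup (Fin m))) (Φ : Finset (Monoid.End (FreeGroup (Fin m))))
    (e : G ≃* PresentedGroup ((Q : Set (FreeGroup (Fin m))) ∪
      {x | ∃ φ ∈ Submonoid.closure (Φ : Set (Monoid.End (FreeGroup (Fin m)))), ∃ r ∈ R, x = φ r})) : False := by
  obtain ⟨π, ps, hπ⟩ : ∃ π : FreeGroup (Fin m) →* G, Function.Surjective π ∧ ∀ w, π w = 1 ↔
      w ∈ Subgroup.normalClosure ((Q : Set (FreeGroup (Fin m))) ∪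
      {x | ∃ φ ∈ Submonoid.closure (Φ : Set (Monoid.End (FreeGroup (Fin m)))), ∃ r ∈ R, x = φ r}) :=
    ⟨e.symm.toMonoidHom.comp (PresentedGroup.mk _), e.symm.surjective.comp (PresentedGroup.mk_surjective _),
      fun w => (map_eq_one_iff _ e.symm.injective).trans PresentedGroup.mk_eq_one_iff⟩
  clear e
  choose s s1 using hs
  choose t t1 using ps
  obtain ⟨h, hh⟩ : ∃ h : FreeGroup (Fin m) →* FreeGroup ι, ∀ w, π' (h w) = π w :=
    ⟨FreeGroup.lift fun i => s (π (.of i)), DFunLike.congr_fun (show π'.comp _ = π by ext1; simp [s1])⟩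
  obtain ⟨q, hq⟩ : ∃ q : FreeGroup ι →* FreeGroup (Fin m), ∀ w, π (q w) = π' w :=
    ⟨FreeGroup.lift fun i => t (π' (.of i)), DFunLike.congr_fun (show π.comp _ = π' by ext1; simp [t1])⟩
  have ev : ∀ n : ℕ, ∀ᶠ C in Filter.atTop, n ≤ C := Filter.eventually_ge_atTop
  obtain ⟨C, c0, c1, c2, c3, c4, c5⟩ := ((ev 1).and ((Filter.eventually_all.2 fun i => ev (h (.of i)).norm).and
    (((Filter.eventually_all_finset Φ).2 fun σ _ => Filter.eventually_all.2 fun i => ev (σ (.of i)).norm).and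
    (((Filter.eventually_all_finset R).2 fun r _ => ev r.norm).and
    (((Filter.eventually_all_finset Q).2 fun r _ => ev (h r).norm).and
    (Filter.eventually_all.2 fun i => ev ((FreeGroup.of i)⁻¹ * h (q (.of i))).norm)))))).exists
  obtain ⟨E, _, _, θ, a, w, w1, w2⟩ := H C m
  have cc : C ≤ C ^ (Nat.card E ^ m + 2) := Nat.le_self_pow (by simp) _
  have : Finite (FreeGroup (Fin m) →* E) := .of_equiv _ FreeGroup.lift
  obtain ⟨n, n1, n2⟩ := chain (fun n => {ψ : FreeGroup (Fin m) →* E | ∃ φ ∈ Submonoid.closure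
    (Φ : Set (Monoid.End (FreeGroup (Fin m)))), ψ = (θ.comp h).comp φ ∧ ∀ i, (h (φ (.of i))).norm ≤ C ^ (n + 1)})
    fun n ψ ⟨φ, x, y, z⟩ => ⟨φ, x, y, fun i => (z i).trans (Nat.pow_le_pow_right c0 (by omega))⟩
  rw [← Nat.card_congr FreeGroup.lift, Nat.card_fun, Nat.card_eq_fintype_card (α := Fin m), Fintype.card_fin] at n1
  have all : ∀ φ ∈ Submonoid.closure (Φ : Set (Monoid.End (FreeGroup (Fin m)))), ∃ φ' ∈ Submonoid.closure
      (Φ : Set (Monoid.End (FreeGroup (Fin m)))), (θ.comp h).comp φ = (θ.comp h).comp φ' ∧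
        ∀ i, (h (φ' (.of i))).norm ≤ C ^ (n + 1) := fun φ hφ => by
    induction hφ using Submonoid.closure_induction_right with
    | one => exact ⟨1, one_mem _, rfl, fun i => (c1 i).trans (Nat.le_self_pow (by simp) _)⟩
    | mul_right φ _ σ hσ ih =>
      obtain ⟨φ', x, y, z⟩ := ih
      exact n2 ⟨φ' * σ, mul_mem x (Submonoid.subset_closure hσ), MonoidHom.ext fun u => DFunLike.congr_fun y (σ u),
        fun i => (norm_map (h.comp φ') z (σ (.of i))).trans (Nat.mul_le_mul_left _ (c2 σ hσ i))⟩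
  have k : θ (h (q w)) = 1 := by
    refine Subgroup.normalClosure_le_normal (N := (θ.comp h).ker) ?_ ((hπ _).1 ((hq w).trans w1))
    rintro _ (x | ⟨φ, x, r, y, rfl⟩)
    · exact a _ ((hh _).trans ((hπ _).2 (Subgroup.subset_normalClosure (.inl x)))) ((c4 _ x).trans cc)
    obtain ⟨φ', x, z, u⟩ := all φ x
    refine (DFunLike.congr_fun z r).trans (a _ ((hh _).trans ((hπ _).2 (Subgroup.subset_normalClosure
      (.inr ⟨φ', x, r, y, rfl⟩)))) ((norm_map (h.comp φ') u r).trans ((Nat.mul_le_mul_left _ (c3 r y)).trans ?_)))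
    rw [← pow_succ]
    exact Nat.pow_le_pow_right c0 (by omega)
  refine w2 ((DFunLike.congr_fun (show θ = (θ.comp h).comp q from ?_) w).trans k)
  ext1 i
  simpa [inv_mul_eq_one] using a _ (by simp [hh, hq]) ((c5 i).trans cc)

end Pool.Agent.H.MP_374aea_al
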