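import Pool.Agent.H.MP_374aea_al.Win
import Pool.Agent.H.MP_374aea_al.Crit

set_option autoImplicit false
set_option maxHeartbeats 400000

namespace Pool.Agent.H.MP_374aea_al

abbrev B := Equiv.Perm (Fin 3)

@[ext] structure Amb (A Y : Type) where
  c : Y → B
  n : A

section
variable {A Y : Type} [AddCommGroup A] [AddAction A Y]

namespace Amb

instance : Mul (Amb A Y) := ⟨fun g h => ⟨fun y => g.c y * h.c (-g.n +ᵥ y), g.n + h.n⟩⟩
instance : One (Amb A Y) := ⟨⟨fun _ => 1, 0⟩⟩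
instance : Inv (Amb A Y) := ⟨fun g => ⟨fun y => (g.c (g.n +ᵥ y))⁻¹, -g.n⟩⟩

@[simp] theorem mul_c (g h : Amb A Y) (y) : (g * h).c y = g.c y * h.c (-g.n +ᵥ y) := rfl
@[simp] theorem mul_n (g h : Amb A Y) : (g * h).n = g.n + h.n := rfl
omit [AddAction A Y] in
@[simp] theorem one_c (y) : (1 : Amb A Y).c y = 1 := rfl
omit [AddAction A Y] in
@[simp] theorem one_n : (1 : Amb A Y).n = 0 := rfl
@[simp] theorem inv_c (g : Amb A Y) (y) : g⁻¹.c y = (g.c (g.n +ᵥ y))⁻¹ := rfl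
@[simp] theorem inv_n (g : Amb A Y) : g⁻¹.n = -g.n := rfl

instance : Group (Amb A Y) := Group.ofLeftAxioms
  (fun a b c => by ext1 <;> simp [funext_iff, add_assoc, mul_assoc, ← add_vadd])
  (fun a => by ext1 <;> simp [funext_iff])
  (fun a => by ext1 <;> simp [funext_iff])

end Amb

open Classical in
noncomputable def gen (a : A) (ℓ : St → Y → Prop) : Option (St × B) → Amb A Y
  | none => ⟨fun _ => 1, a⟩
  | some p => ⟨fun y => if ℓ p.1 y then p.2 else 1, 0⟩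

theorem gen_pow (a : A) (ℓ : St → Y → Prop) (k : ℕ) : gen a ℓ none ^ k = ⟨fun _ => 1, k • a⟩ := by
  induction k with
  | zero => ext1 <;> simp [funext_iff]
  | succ k ih => rw [pow_succ, ih]; ext1 <;> simp [funext_iff, gen, succ_nsmul]

end

instance : AddAction ℤ (List L) where
  vadd := ac
  zero_vadd := ac_zero
  add_vadd m n v := ac_add v m n

theorem vadd_eq (n : ℤ) (v : List L) : n +ᵥ v = ac n v := rfl

abbrev F := FreeGroup (Option (St × B))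

noncomputable def π₀ : F →* Amb ℤ (List L) := FreeGroup.lift (gen 1 lab)

def ell' (m : ℕ) (σ : St) (i : ZMod m) : Prop := σ = .on ∨ (σ = .ini ∧ i = 0) ∨ (σ = .zer ∧ i ≠ 0)

noncomputable def θ (m : ℕ) : F →* Amb (ZMod m) (ZMod m) := FreeGroup.lift (gen 1 (ell' m))

theorem short {m R : ℕ} [NeZero m] {v} (h : ∀ σ (i : ℤ), i.natAbs < R → (lab σ (ac i v) ↔ ell m σ i)) {w : F}
    (h1 : π₀ w = 1) (h2 : w.norm + m ≤ R) : θ m w = 1 := by
  have : ∀ l, (π₀ (.mk l)).n.natAbs ≤ l.length ∧ (θ m (.mk l)).n = ((π₀ (.mk l)).n : ℤ) ∧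
      ∀ i : ℤ, i.natAbs + l.length < R → (θ m (.mk l)).c i = (π₀ (.mk l)).c (i +ᵥ v) := fun l => by
    induction l with
    | nil => simp [← FreeGroup.one_eq_mk]
    | cons x l ih =>
      have : (π₀ (.mk [x])).n.natAbs ≤ 1 ∧ (θ m (.mk [x])).n = ((π₀ (.mk [x])).n : ℤ) ∧
          ∀ i : ℤ, i.natAbs < R → (θ m (.mk [x])).c i = (π₀ (.mk [x])).c (i +ᵥ v) := by
        have : ∀ σ (i : ℤ), i.natAbs < R → (ell' m σ i ↔ lab σ (i +ᵥ v)) := fun σ i k => by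
          rw [vadd_eq, h σ i k]; simp [ell, ell', ZMod.intCast_zmod_eq_zero_iff_dvd]
        classical
        obtain ⟨_ | p, _ | _⟩ := x <;> simp [π₀, θ, gen] <;> intro i k <;>
          exact if_congr (by simpa using this p.1 i k) rfl rfl
      rw [← List.singleton_append, ← FreeGroup.mul_mk, map_mul, map_mul]
      refine ⟨by simp; omega, by simp [ih.2.1, this.2.1], fun i k => ?_⟩
      simp at k
      rw [Amb.mul_c, Amb.mul_c, this.2.2 i (by omega), this.2.1, ← add_vadd, ← ih.2.2 _ (by omega)]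
      simp
  obtain ⟨-, a, b⟩ := this w.toWord
  rw [FreeGroup.mk_toWord, h1] at a b
  ext1
  · ext1 i
    have := i.val_lt
    simpa using b i.val (by simp only [FreeGroup.norm] at h2; omega)
  · simpa using a

theorem bad (j : ℕ) : ∃ w, π₀ w = 1 ∧ θ (128 ^ j) w ≠ 1 := by
  have : ∀ k : ℕ, ∃ w, (π₀ w).n = 0 ∧ (θ (128 ^ j) w).n = 0 ∧ (θ (128 ^ j) w).c 0 ≠ 1 ∧
      ∀ u, (π₀ w).c u ≠ 1 → ∀ i < k, lab (pat j i) (ac i u) := fun k => by
    induction k with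
    | zero => exact ⟨.of (some (.on, Equiv.swap 0 1)), by simp [π₀, gen], by simp [θ, gen],
        by simp [θ, gen, ell'], by simp⟩
    | succ k ih =>
      obtain ⟨w, a, b, c, d⟩ := ih
      obtain ⟨p, hp⟩ := (by decide : ∀ b : B, b ≠ 1 → ∃ p, b * p * b⁻¹ * p⁻¹ ≠ 1) _ c
      obtain ⟨y, y1, y2, y3, y4⟩ : ∃ y, (π₀ y).n = 0 ∧ (θ (128 ^ j) y).n = 0 ∧ (θ (128 ^ j) y).c 0 = p ∧
          ∀ u, (π₀ y).c u ≠ 1 → lab (pat j k) (ac k u) := by
        refine ⟨(.of none ^ k)⁻¹ * .of (some (pat j k, p)) * .of none ^ k, ?_⟩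
        simp only [π₀, θ, map_mul, map_inv, map_pow, FreeGroup.lift_apply_of, gen_pow]
        have : ell' (128 ^ j) (pat j k) k := by
          have : ((k : ℤ) : ZMod (128 ^ j)) = 0 ↔ 128 ^ j ∣ (k : ℤ) := by
            simp only [ZMod.intCast_zmod_eq_zero_iff_dvd]; simp
          unfold pat
          split_ifs <;> simp_all [ell']
        simp +contextual [gen, vadd_eq, this]
      refine ⟨w * y * w⁻¹ * y⁻¹, by simp [a, y1], by simp [b, y2], by simpa [b, y2, y3] using hp, fun u e i l => ?_⟩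
      obtain l | rfl := Nat.lt_succ_iff_lt_or_eq.1 l
      · exact d u (fun f => e (by simp [a, y1, f])) i l
      · exact y4 u fun f => e (by simp [a, y1, f])
  obtain ⟨K, h⟩ := nopat j 0
  obtain ⟨w, a, -, c, d⟩ := this K
  refine ⟨w, Amb.ext (funext fun u => ?_) a, fun e => c (by simp [e])⟩
  by_contra e
  obtain ⟨i, i1, i2⟩ := h u
  exact i2 (by simpa [enc] using d u e i i1)

theorem est (C r : ℕ) : ∃ j, C ^ ((6 ^ 128 ^ (j + 1) * 128 ^ (j + 1)) ^ r + 2) + 128 ^ (j + 1) ≤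
    128 ^ tw (j + 1) (j + 1) := by
  obtain ⟨k, hk⟩ : ∃ k, k = C + r + 6 := ⟨_, rfl⟩
  refine ⟨k + 2, ?_⟩
  generalize hj : k + 2 + 1 = j
  have l2 : ∀ n, n ≤ 2 ^ n := fun n => Nat.lt_two_pow_self.le
  have p2 : ∀ {a b}, a ≤ b → 2 ^ a ≤ 2 ^ b := Nat.pow_le_pow_right (by simp)
  have t : 2 ^ 2 ^ (8 * j) ≤ tw j j := by
    have a : ∀ n m, 1 ≤ n → m ≤ n → 2 ^ m ≤ n * 2 ^ n := fun n m a b => (p2 b).trans (Nat.le_mul_of_pos_left _ a)
    have b : 8 * j ≤ j * 2 ^ j := mul_comm 8 j ▸ Nat.mul_le_mul_left _ (p2 (show 3 ≤ j by omega))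
    have c := a _ _ (by omega) b
    nth_rw 2 [← hj]
    exact (a _ _ (Nat.one_le_two_pow.trans c) c).trans (le_tw k _)
  obtain ⟨m, hm⟩ : ∃ m, m = 128 ^ j := ⟨_, rfl⟩
  have m1 : 1 ≤ m := hm ▸ Nat.one_le_pow _ _ (by simp)
  have j8 : 8 * j + 8 ≤ 2 ^ j := by
    obtain ⟨i, rfl⟩ : ∃ i, j = i + 6 := ⟨j - 6, by omega⟩
    have := l2 i
    rw [pow_add]; omega
  have e1 : (6 ^ m * m) ^ r ≤ 2 ^ (4 * m * j) := by
    rw [pow_mul]
    refine (Nat.pow_le_pow_left ?_ _).trans (Nat.pow_le_pow_right Nat.one_le_two_pow (by omega))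
    rw [show 4 * m = 3 * m + m by ring, pow_add, pow_mul]
    exact Nat.mul_le_mul (Nat.pow_le_pow_left (by simp) _) (l2 m)
  rw [← hm]
  generalize (6 ^ m * m) ^ r = z at e1
  obtain ⟨u, hu⟩ : ∃ u, u = 4 * m * j := ⟨_, rfl⟩
  have u1 : C ≤ u ∧ m ≤ u ∧ 2 ≤ u := by refine ⟨?_, ?_, ?_⟩ <;> nlinarith
  rw [← hu] at e1
  have e2 : C * (z + 2) + m ≤ 2 ^ (2 * u + 2) := by
    have := l2 u
    rw [pow_add, two_mul, pow_add]
    nlinarith
  have e3 : 2 * u + 2 ≤ 2 ^ (8 * j) := by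
    rw [show 8 * j = j + 7 * j by ring, pow_add, pow_mul, ← show m = (2 ^ 7) ^ j from hm]
    nlinarith
  have e4 := (e2.trans (p2 e3)).trans t
  have e5 : C ^ (z + 2) ≤ 2 ^ tw j j :=
    (Nat.pow_le_pow_left (l2 C) _).trans (by rw [← pow_mul]; exact p2 (by omega))
  have e6 := l2 (tw j j)
  calc _ ≤ 2 ^ (tw j j + 1) := by rw [pow_succ 2]; omega
    _ ≤ 2 ^ (7 * tw j j) := p2 (by omega)
    _ = _ := pow_mul ..

def eqv (A Y : Type) : Amb A Y ≃ (Y → B) × A := ⟨fun g => (g.c, g.n), fun p => ⟨p.1, p.2⟩, fun _ => rfl, fun _ => rfl⟩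

theorem hid (C r : ℕ) : ∃ (E : Type) (_ : Group E) (_ : Finite E) (θ : F →* E),
    (∀ w, π₀ w = 1 → w.norm ≤ C ^ (Nat.card E ^ r + 2) → θ w = 1) ∧ ∃ w, π₀ w = 1 ∧ θ w ≠ 1 := by
  obtain ⟨j, h⟩ := est C r
  obtain ⟨v, hv⟩ := window j
  refine ⟨_, inferInstance, .of_equiv _ (eqv ..).symm, θ (128 ^ (j + 1)), fun w a b =>
    short (by exact_mod_cast hv) a ?_, bad _⟩
  rw [Nat.card_congr (eqv ..), Nat.card_prod, Nat.card_fun, Nat.card_zmod, Nat.card_perm] at b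
  simp only [Nat.card_eq_fintype_card, Fintype.card_fin, show Nat.factorial 3 = 6 from rfl] at b
  omega

end Pool.Agent.H.MP_374aea_al
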