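import Pool.Agent.H.MP_374aea_al.Grp

set_option autoImplicit false
set_option maxHeartbeats 400000

namespace Pool.Agent.H.MP_374aea_al

abbrev Am := Amb ℤ (List L)
abbrev X := L ⊕ Fin 3

instance : Finite L :=
  (Set.Finite.subset (Set.finite_univ.prod (Set.finite_Icc (0 : ℤ) 1408))
    (show {p : Tr × ℤ | 0 ≤ p.2 ∧ p.2 < 128 * Q p.1} ⊆ _ from fun ⟨t, r⟩ ⟨h1, h2⟩ => by
      cases t <;> simp [Q] at h1 h2 ⊢ <;> omega)).to_subtype

def out (g : Am) : X → X
  | .inl x => .inl (nx g.n x)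
  | .inr y => .inr (g.c [] y)

def sc (g : Am) : X → Am
  | .inl x => ⟨fun v => g.c (nx g.n x :: v), sn g.n x⟩
  | .inr _ => 1

theorem out_mul (g h : Am) (x) : out (g * h) x = out g (out h x) := by
  obtain x | y := x
  · simp [out, nx_add]
  · rfl

theorem sc_mul (g h : Am) (x) : sc (g * h) x = sc g (out h x) * sc h x := by
  obtain x | y := x
  · ext1
    · ext1 v
      have := sn_add (-g.n) (g.n + h.n) x
      rw [neg_add_cancel_left, sn_add g.n] at this
      simp only [sc, out, Amb.mul_c, Amb.mul_n, vadd_eq, ac, ← nx_add, neg_add_cancel_left]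
      congr 4
      omega
    · exact sn_add ..
  · simp [out, sc]

theorem out_one (x) : out 1 x = x := by
  obtain x | y := x <;> simp [out, nx_zero]

theorem sc_one (x) : sc 1 x = 1 := by
  obtain x | y := x
  · exact Amb.ext rfl (sn_zero x)
  · rfl

noncomputable abbrev d := Nat.card X
noncomputable def en : X ≃ Fin d := Finite.equivFin X

noncomputable def act : Am → List (Fin d) → List (Fin d)
  | _, [] => []
  | g, x :: w => en (out g (en.symm x)) :: act (sc g (en.symm x)) w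

theorem act_mul (w : List (Fin d)) : ∀ g h, act (g * h) w = act g (act h w) := by
  induction w with
  | nil => intro g h; rfl
  | cons x w ih => intro g h; simp [act, out_mul, sc_mul, ih]

theorem act_one (w : List (Fin d)) : act 1 w = w := by
  induction w with
  | nil => rfl
  | cons x w ih => simp [act, out_one, sc_one, ih]

noncomputable def rho : Am →* Equiv.Perm (List (Fin d)) :=
  MonoidHom.toHomPerm ⟨⟨act, funext act_one⟩, fun g h => funext fun w => act_mul w g h⟩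

theorem triv_step {g : Am} (h : rho g = 1) (x) : out g x = x ∧ rho (sc g x) = 1 := by
  have : ∀ w, act g (en x :: w) = en x :: w := fun w => Equiv.ext_iff.1 h (en x :: w)
  simp only [act, Equiv.symm_apply_apply, List.cons.injEq, EmbeddingLike.apply_eq_iff_eq] at this
  exact ⟨(this []).1, Equiv.ext fun w => (this w).2⟩

theorem faithful {g : Am} (h : rho g = 1) : g = 1 := by
  have a : ∀ k (g : Am), g.n.natAbs ≤ k → rho g = 1 → g.n = 0 := fun k => by
    induction k with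
    | zero => intro g e _; omega
    | succ k ih =>
      intro g e h
      obtain ⟨h1, h2⟩ := triv_step h (.inl (z0 .e0))
      have h1 : (0 + g.n) % 128 = 0 := congrArg (fun p => p.1.2) (Sum.inl.inj h1)
      have := ih _ (by simp [sc, sn, z0, P, Q]; omega) h2
      simp [sc, sn, z0, P, Q] at this
      omega
  have b : ∀ v (g : Am), rho g = 1 → g.c v = 1 := fun v => by
    induction v with
    | nil => exact fun g h => Equiv.ext fun y => Sum.inr.inj (triv_step h (.inr y)).1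
    | cons x v ih =>
      intro g h
      obtain ⟨h1, h2⟩ := triv_step h (.inl x)
      exact Sum.inl.inj h1 ▸ ih _ h2
  exact Amb.ext (funext fun v => b v g h) (a _ g le_rfl h)

theorem sh_mem (n : ℤ) : (⟨fun _ => 1, n⟩ : Am) ∈ π₀.range := by
  have : ∀ k : ℕ, (⟨fun _ => 1, k⟩ : Am) ∈ π₀.range := fun k => ⟨.of none ^ k, by simp [π₀, gen_pow]⟩
  obtain ⟨k, rfl | rfl⟩ := n.eq_nat_or_neg
  exacts [this k, inv_mem (this k)]

theorem sc_mem (w : F) : ∀ x, sc (π₀ w) x ∈ π₀.range := by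
  induction w using FreeGroup.induction_on with
  | C1 => intro x; rw [map_one, sc_one]; exact one_mem _
  | of i =>
    rintro (x | y)
    swap; exact one_mem _
    rw [π₀, FreeGroup.lift_apply_of]
    obtain _ | p := i
    · exact sh_mem _
    · exact ⟨.of (some (δ p.1 x.1.1 x.1.2, p.2)), by simp [sc, gen, nx_zero, sn_zero, lab]; rfl⟩
  | inv_of i ih =>
    intro x
    rw [map_inv, eq_inv_of_mul_eq_one_right ((sc_mul _ _ x).symm.trans (by rw [mul_inv_cancel, sc_one]))]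
    exact inv_mem (ih _)
  | mul u v a b => intro x; rw [map_mul, sc_mul]; exact mul_mem (a _) (b _)

def Loc (ρ : ℕ) (g : Am) : Prop := g.n.natAbs ≤ ρ ∧
  ∀ u u', (∀ σ (i : ℤ), i.natAbs ≤ ρ → (lab σ (ac i u) ↔ lab σ (ac i u'))) → g.c u = g.c u'

theorem Loc.mono {ρ ρ' g} (h : Loc ρ g) (l : ρ ≤ ρ') : Loc ρ' g :=
  ⟨h.1.trans l, fun u u' k => h.2 u u' fun σ i e => k σ i (e.trans l)⟩

theorem loc (w : F) : ∃ ρ, Loc ρ (π₀ w) := by
  induction w using FreeGroup.induction_on with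
  | C1 => exact ⟨0, by simp [Loc]⟩
  | of i =>
    rw [π₀, FreeGroup.lift_apply_of]
    obtain _ | p := i
    · exact ⟨1, le_rfl, fun _ _ _ => rfl⟩
    · classical
      exact ⟨0, le_rfl, fun u u' k => if_congr (by simpa [ac_zero] using k p.1 0) rfl rfl⟩
  | inv_of i ih =>
    obtain ⟨ρ, a, b⟩ := ih
    refine ⟨ρ + ρ, by simp; omega, fun u u' k => ?_⟩
    rw [map_inv, Amb.inv_c, Amb.inv_c, b]
    exact fun σ i e => by simpa [vadd_eq, ← ac_add] using k σ _ (by omega)
  | mul u v a b =>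
    obtain ⟨ρ, a, a'⟩ := a
    obtain ⟨ρ', b, b'⟩ := b
    refine ⟨ρ + ρ', by simp; omega, fun u u' k => ?_⟩
    rw [map_mul, Amb.mul_c, Amb.mul_c, a' u u' fun σ i e => k σ i (by omega), b']
    exact fun σ i e => by simpa [vadd_eq, ← ac_add] using k σ _ (by omega)

theorem sn_le (n x) : (sn n x).natAbs ≤ n.natAbs / 2 + 55 := by
  obtain ⟨⟨e, r⟩, h⟩ := x
  cases e <;> simp [sn, P, Q] at h ⊢ <;> omega

theorem loc_step {c g} (h : Loc (c + 110) g) (x) : Loc (c - 1 + 110) (sc g x) := by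
  obtain x | y := x
  · refine ⟨(sn_le ..).trans (by have := h.1; omega), fun u u' k => h.2 _ _ fun σ i e => k _ _ ?_⟩
    exact (sn_le ..).trans (by omega)
  · exact ⟨by simp [sc], fun _ _ _ => rfl⟩

theorem loc_fin (ρ : ℕ) : {g | Loc ρ g}.Finite := by
  let τ : List L → St × Set.Icc (-ρ : ℤ) ρ → Prop := fun u p => lab p.1 (ac p.2 u)
  refine (Set.finite_range fun p : ((St × Set.Icc (-ρ : ℤ) ρ → Prop) → B) × Set.Icc (-ρ : ℤ) ρ =>
    (⟨p.1 ∘ τ, p.2⟩ : Am)).subset fun g h => ⟨(Function.extend τ g.c 1, ⟨g.n, by have := h.1; simp; omega⟩),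
      Amb.ext (Function.FactorsThrough.extend_comp _ fun u u' k => h.2 u u' fun σ i e => ?_) rfl⟩
  exact iff_of_eq (congrFun k (σ, ⟨i, by simp; omega⟩))

theorem deep (v : List (Fin d)) : ∀ c g, g ∈ π₀.range → Loc (c + 110) g → c ≤ v.length →
    ∃ h ∈ π₀.range, Loc 110 h ∧ ∀ w, act g (v ++ w) = act g v ++ act h w := by
  induction v with
  | nil => exact fun c g m h l => ⟨g, m, h.mono (by simpa using l), fun w => rfl⟩
  | cons x v ih =>
    rintro c _ ⟨u, rfl⟩ h l
    obtain ⟨k, a, a', b⟩ := ih _ _ (sc_mem u _) (loc_step h (en.symm x)) (by simp at l; omega)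
    exact ⟨k, a, a', fun w => by rw [List.cons_append, act, b]; rfl⟩

theorem main : ∃ d : ℕ, 2 ≤ d ∧ ∃ G : Subgroup (Equiv.Perm (List (Fin d))), Group.FG G ∧ (∀ g ∈ G, g [] = []) ∧
    (∀ g ∈ G, ∀ x : Fin d, ∃ y : Fin d, ∃ h ∈ G, ∀ w : List (Fin d), g (x :: w) = y :: h w) ∧
    (∃ N : Finset (Equiv.Perm (List (Fin d))), (∀ h ∈ N, h ∈ G) ∧ ∀ g ∈ G, ∃ k : ℕ, ∀ v : List (Fin d),
        k ≤ v.length → ∃ h ∈ N, ∀ w : List (Fin d), g (v ++ w) = g v ++ h w) ∧
    ∀ (m : ℕ) (Q R : Finset (FreeGroup (Fin m))) (Φ : Finset (Monoid.End (FreeGroup (Fin m)))),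
      IsEmpty (G ≃* PresentedGroup ((Q : Set (FreeGroup (Fin m))) ∪
        {x | ∃ φ ∈ Submonoid.closure (Φ : Set (Monoid.End (FreeGroup (Fin m)))), ∃ r ∈ R, x = φ r})) := by
  refine ⟨d, le_trans (by simp) (Nat.card_le_card_of_injective _ (Sum.inr_injective (α := L) (β := Fin 3))),
    (rho.comp π₀).range, inferInstance, ?_, ?_, ?_, fun m Q R Φ => ⟨crit _ (rho.comp π₀).rangeRestrict_surjective
      (fun C r => ?_) m Q R Φ⟩⟩
  · rintro _ ⟨g, rfl⟩; rfl
  · rintro _ ⟨g, rfl⟩ x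
    obtain ⟨u, h⟩ := sc_mem g (en.symm x)
    exact ⟨_, _, ⟨u, rfl⟩, fun w => by rw [MonoidHom.comp_apply _ _ u, h]; rfl⟩
  · have : (rho '' ({g | Loc 110 g} ∩ π₀.range)).Finite := ((loc_fin _).inter_of_left _).image _
    refine ⟨this.toFinset, fun h e => ?_, ?_⟩
    · obtain ⟨_, ⟨-, u, rfl⟩, rfl⟩ := this.mem_toFinset.1 e
      exact ⟨u, rfl⟩
    rintro _ ⟨g, rfl⟩
    obtain ⟨c, h⟩ := loc g
    refine ⟨c, fun v l => ?_⟩
    obtain ⟨k, a, a', b⟩ := deep v c _ ⟨g, rfl⟩ (h.mono (by simp)) l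
    exact ⟨_, this.mem_toFinset.2 ⟨k, ⟨a', a⟩, rfl⟩, b⟩
  · obtain ⟨E, _, _, θ, a, w, b, c⟩ := hid C r
    exact ⟨E, _, ‹_›, θ, fun w e => a w (faithful (congrArg Subtype.val e)), w,
      Subtype.ext ((congrArg rho b).trans (map_one _)), c⟩

end Pool.Agent.H.MP_374aea_al
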