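import Mathlib

set_option autoImplicit false
set_option maxHeartbeats 400000

namespace Pool.Agent.H.MP_374aea_al

inductive St | a | b | c | ini | zer | on | off deriving DecidableEq, Fintype
inductive Tr | e0 | aa | ab | bb | ba | ac | cc | cb deriving DecidableEq, Fintype

def src : Tr → St
  | .e0 => .ini | .aa | .ab | .ac => .a | .bb | .ba => .b | _ => .c
def tgt : Tr → St
  | .e0 => .ini | .aa | .ba => .a | .ab | .bb | .cb => .b | _ => .c
def P : Tr → ℤ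
  | .e0 => 55 | .aa => 9 | .bb => 5 | .cc => 21 | _ => 1
def Q : Tr → ℤ
  | .aa | .cc => 5 | .ab => 7 | .bb => 3 | .ac => 11 | _ => 1

theorem Q_pos (e) : 0 < Q e := by cases e <;> decide
theorem D_pos (e) : 0 < 128 * Q e := by cases e <;> decide

abbrev L := {p : Tr × ℤ // 0 ≤ p.2 ∧ p.2 < 128 * Q p.1}

def nx (n : ℤ) (x : L) : L :=
  ⟨(x.1.1, (x.1.2 + n) % (128 * Q x.1.1)), Int.emod_nonneg _ (D_pos _).ne', Int.emod_lt_of_pos _ (D_pos _)⟩
def sn (n : ℤ) (x : L) : ℤ := P x.1.1 * ((x.1.2 + n) / (128 * Q x.1.1))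

theorem nx_add (m n x) : nx (m + n) x = nx m (nx n x) := by
  simp [nx, add_comm m, add_assoc]

theorem sn_add (m n x) : sn (m + n) x = sn m (nx n x) + sn n x := by
  simp only [sn, nx, ← mul_add]
  rw [← Int.add_mul_ediv_left _ _ (D_pos _).ne']
  congr 2
  linear_combination -Int.emod_add_mul_ediv (x.1.2 + n) (128 * Q x.1.1)

theorem nx_zero (x) : nx 0 x = x := by
  simp [nx, Int.emod_eq_of_lt x.2.1 x.2.2]

theorem sn_zero (x) : sn 0 x = 0 := by
  simp [sn, Int.ediv_eq_zero_of_lt x.2.1 x.2.2]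

def ac : ℤ → List L → List L
  | _, [] => []
  | n, x :: v => nx n x :: ac (sn n x) v

theorem ac_add (v) : ∀ m n, ac (m + n) v = ac m (ac n v) := by
  induction v with
  | nil => intros; rfl
  | cons x v ih => intro m n; simp [ac, nx_add, sn_add, ih]

theorem ac_zero (v) : ac 0 v = v := by
  induction v with
  | nil => rfl
  | cons x v ih => simp [ac, nx_zero, sn_zero, ih]

def δ (σ : St) (e : Tr) (d : ℤ) : St :=
  if σ = .on then .on else if σ = .zer then (if e = .e0 then (if d = 0 then .zer else .on) else .off) else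
    if src e = σ ∨ (σ = .ini ∧ src e = .a) then
      (if d = 0 then tgt e else if Q e ∣ d ∧ e ≠ .e0 then .on else .off) else .off

def lab : St → List L → Prop
  | σ, [] => σ = .on
  | σ, x :: v => lab (δ σ x.1.1 x.1.2) v

theorem lab_on (v) : lab .on v := by
  induction v with
  | nil => rfl
  | cons x v ih => exact ih

theorem lab_off (v) : ¬ lab .off v := by
  induction v with
  | nil => simp [lab]
  | cons x v ih =>
    rw [lab, show δ .off x.1.1 x.1.2 = .off by cases x.1.1 <;> simp [δ, src]]; exact ih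

theorem lab_ini {x : L} (h : x.1.1 ≠ .e0) (v) : (lab .ini (x :: v) ↔ lab .a (x :: v)) ∧ ¬ lab .zer (x :: v) := by
  obtain ⟨⟨e, d⟩, _⟩ := x
  cases e <;> simp_all [lab, δ, src, lab_off]

abbrev Cf := ℕ × ℕ × ℕ × ℕ

def enc (c : Cf) : ℤ := 11 ^ c.1 * 7 ^ c.2.1 * 5 ^ c.2.2.1 * 3 ^ c.2.2.2

theorem enc_odd (c) : Odd (enc c) :=
  (((Odd.pow (by decide)).mul (Odd.pow (by decide))).mul (Odd.pow (by decide))).mul (Odd.pow (by decide))

def μ : St → Cf → ℕ ×ₗ ℕ ×ₗ ℕ ×ₗ ℕ ×ₗ ℕ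
  | .a, (w, z, x, _) => toLex (w, toLex (0, toLex (z, toLex (0, x))))
  | .b, (w, z, _, y) => toLex (w, toLex (0, toLex (z, toLex (1, y))))
  | _, (w, _, x, _) => toLex (w, toLex (1, toLex (x, toLex (0, 0))))

theorem dec {e c} (he : e ≠ .e0) (h : Q e ∣ enc c) : ∃ c' c₀, enc c = Q e * enc c₀ ∧ enc c' = P e * enc c₀ ∧
    μ (tgt e) c' < μ (src e) c := by
  obtain ⟨w, z, x, y⟩ := c
  have k : ∀ p : ℕ, p.Prime → (p : ℤ) ∣ enc (w, z, x, y) →
      (p = 11 → w ≠ 0) ∧ (p = 7 → z ≠ 0) ∧ (p = 5 → x ≠ 0) ∧ (p = 3 → y ≠ 0) := fun p hp h => by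
    have hp := Nat.prime_iff_prime_int.1 hp
    simp only [enc, hp.dvd_mul] at h
    refine ⟨?_, ?_, ?_, ?_⟩ <;> rintro rfl rfl <;> obtain ((h | h) | h) | h := h <;>
      first | exact absurd (hp.dvd_of_dvd_pow h) (by decide) | exact absurd h (by decide)
  cases e
  · exact absurd rfl he
  · obtain ⟨x, rfl⟩ := Nat.exists_eq_succ_of_ne_zero ((k 5 (by norm_num) h).2.2.1 rfl)
    exact ⟨(w, z, x, y + 2), (w, z, x, y), by simp [enc, Q]; ring, by simp [enc, P]; ring,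
      by simp [μ, tgt, src, Prod.Lex.toLex_lt_toLex]⟩
  · obtain ⟨z, rfl⟩ := Nat.exists_eq_succ_of_ne_zero ((k 7 (by norm_num) h).2.1 rfl)
    exact ⟨(w, z, x, y), (w, z, x, y), by simp [enc, Q]; ring, by simp [enc, P],
      by simp [μ, tgt, src, Prod.Lex.toLex_lt_toLex]⟩
  · obtain ⟨y, rfl⟩ := Nat.exists_eq_succ_of_ne_zero ((k 3 (by norm_num) h).2.2.2 rfl)
    exact ⟨(w, z, x + 1, y), (w, z, x, y), by simp [enc, Q]; ring, by simp [enc, P]; ring,
      by simp [μ, tgt, src, Prod.Lex.toLex_lt_toLex]⟩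
  · exact ⟨(w, z, x, y), (w, z, x, y), by simp [enc, Q], by simp [enc, P],
      by simp [μ, tgt, src, Prod.Lex.toLex_lt_toLex]⟩
  · obtain ⟨w, rfl⟩ := Nat.exists_eq_succ_of_ne_zero ((k 11 (by norm_num) h).1 rfl)
    exact ⟨(w, z, x, y), (w, z, x, y), by simp [enc, Q]; ring, by simp [enc, P],
      by simp [μ, tgt, src, Prod.Lex.toLex_lt_toLex]⟩
  · obtain ⟨x, rfl⟩ := Nat.exists_eq_succ_of_ne_zero ((k 5 (by norm_num) h).2.2.1 rfl)
    exact ⟨(w, z + 1, x, y + 1), (w, z, x, y), by simp [enc, Q]; ring, by simp [enc, P]; ring,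
      by simp [μ, tgt, src, Prod.Lex.toLex_lt_toLex]⟩
  · exact ⟨(w, z, x, y), (w, z, x, y), by simp [enc, Q], by simp [enc, P],
      by simp [μ, tgt, src, Prod.Lex.toLex_lt_toLex]⟩

def z0 (e : Tr) : L := ⟨(e, 0), le_rfl, D_pos e⟩

theorem ac_z0 (e i g v) : ac (128 * i * (Q e * g)) (z0 e :: v) = z0 e :: ac (i * (P e * g)) v := by
  have : 128 * i * (Q e * g) = 128 * Q e * (i * g) := by ring
  simp only [ac, nx, sn, z0, zero_add, this, Int.mul_emod_right, Int.mul_ediv_cancel_left _ (D_pos e).ne']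
  congr 2; ring

theorem odd_dvd {g i : ℤ} (h : Odd g) : 128 ∣ i * g ↔ 128 ∣ i := by
  obtain ⟨k, rfl⟩ := h
  exact ⟨(IsCoprime.pow_left (m := 7) ⟨-k, 1, by ring⟩ : IsCoprime ((2 : ℤ) ^ 7) _).dvd_of_dvd_mul_right,
    fun h => h.mul_right _⟩

theorem hit {g : ℤ} (h : Odd g) (d : ℤ) : ∃ i : ℕ, i < 128 ∧ 128 ∣ d + i * g := by
  obtain ⟨k, rfl⟩ := h
  obtain ⟨a, b, e⟩ := (IsCoprime.pow_left (m := 7) ⟨-k, 1, by ring⟩ : IsCoprime ((2 : ℤ) ^ 7) (2 * k + 1))
  refine ⟨((-d * b) % 128).toNat, by omega, d * a - (-d * b) / 128 * (2 * k + 1), ?_⟩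
  rw [Int.toNat_of_nonneg (by omega), Int.emod_def]
  linear_combination (-d) * e

theorem gap (s c) (hs : s = .a ∨ s = .b ∨ s = .c) : ∃ K, ∀ v, ∃ i : ℕ, i < K ∧ ¬ lab s (ac (i * enc c) v) := by
  induction h : μ s c using WellFoundedLT.induction generalizing s c with
  | ind m ih =>
  have : ∀ e, ∃ K, ∀ d hd v, ∃ i : ℕ, i < K ∧ ¬ lab s (ac (i * enc c) (⟨(e, d), hd⟩ :: v)) := fun e => by
    by_cases h1 : src e = s
    swap
    · refine ⟨1, fun d hd v => ⟨0, by simp, ?_⟩⟩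
      obtain rfl | rfl | rfl := hs <;> simp [ac_zero, lab, δ, h1, lab_off]
    have he : e ≠ .e0 := by rintro rfl; simp [← h1, src] at hs
    have off : ∀ d hd v, ¬ Q e ∣ d → ¬ lab s (⟨(e, d), hd⟩ :: v) := fun d hd v k => by
      have : d ≠ 0 := fun a => k (by simp [a])
      obtain rfl | rfl | rfl := hs <;> simp [lab, δ, h1, k, this, lab_off]
    by_cases h2 : Q e ∣ enc c
    swap
    · refine ⟨2, fun d hd v => ?_⟩
      by_cases k : Q e ∣ d
      · refine ⟨1, by simp, off _ _ _ fun a => h2 ?_⟩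
        have := Int.emod_emod_of_dvd (d + 1 * enc c) (dvd_mul_left (Q e) 128) ▸ Int.emod_eq_zero_of_dvd a
        simpa [dvd_add_right k] using Int.dvd_of_emod_eq_zero this
      · exact ⟨0, by simp, by simpa [ac_zero] using off _ _ _ k⟩
    obtain ⟨c', c₀, e1, e2, lt⟩ := dec he h2
    obtain ⟨K, hK⟩ := ih _ (h ▸ h1 ▸ lt) (tgt e) c' (by cases e <;> simp_all [tgt]) rfl
    refine ⟨128 * K + 128, fun d hd v => ?_⟩
    by_cases k : Q e ∣ d
    swap; exact ⟨0, by simp, by simpa [ac_zero] using off _ _ _ k⟩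
    obtain ⟨d, rfl⟩ := k
    obtain ⟨i, i1, i2⟩ := hit (enc_odd c₀) d
    obtain ⟨i', j1, j2⟩ := hK (ac (sn (i * enc c) ⟨_, hd⟩) v)
    refine ⟨128 * i' + i, by omega, ?_⟩
    have : nx (i * enc c) ⟨_, hd⟩ = z0 e := by
      simp only [nx, z0, e1, Subtype.mk.injEq, Prod.mk.injEq, true_and]
      obtain ⟨t, i2⟩ := i2
      exact Int.emod_eq_zero_of_dvd ⟨t, by linear_combination Q e * i2⟩
    push_cast
    rw [add_mul, ac_add, ac, this, e1, ac_z0, ← e2, ← e1, lab]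
    obtain rfl | rfl | rfl := hs <;> simpa [δ, z0, h1] using j2
  choose K hK using this
  refine ⟨Finset.univ.sup K + 1, fun v => ?_⟩
  obtain _ | ⟨⟨⟨e, d⟩, hd⟩, v⟩ := v
  · exact ⟨0, by simp, by obtain rfl | rfl | rfl := hs <;> simp [ac, lab]⟩
  · obtain ⟨i, a, b⟩ := hK e d hd v
    exact ⟨i, a.trans_le ((Finset.le_sup (f := K) (by simp)).trans (Nat.le_succ _)), b⟩

def pat (j : ℕ) (i : ℤ) : St := if 128 ^ j ∣ i then .ini else .zer

theorem nopat (j : ℕ) : ∀ a : ℕ, ∃ K, ∀ v, ∃ i : ℕ, i < K ∧ ¬ lab (pat j i) (ac (i * enc (a, 0, a, 0)) v) := by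
  have z : ∀ d hd v, lab .ini (⟨(.e0, d), hd⟩ :: v) → d = 0 := fun d hd v h => by
    by_contra k; simp [lab, δ, src, k, lab_off] at h
  induction j with
  | zero =>
    intro a
    obtain ⟨K, h⟩ := gap .a (a, 0, a, 0) (by simp)
    refine ⟨K + 2, fun v => ?_⟩
    simp only [pat, pow_zero, one_dvd, if_true]
    obtain _ | ⟨⟨⟨e, d⟩, hd⟩, v⟩ := v
    · exact ⟨0, by simp, by simp [ac, lab]⟩
    by_cases he : e = .e0
    · subst he
      by_cases k : d = 0
      · refine ⟨1, by simp, fun a => ?_⟩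
        have := z _ _ _ a
        obtain ⟨t, o⟩ := enc_odd (_, 0, _, 0)
        rw [o] at this
        simp [k, Q] at this
        omega
      · exact ⟨0, by simp, fun a => k (z _ hd v (by simpa [ac_zero] using a))⟩
    · obtain ⟨i, a, b⟩ := h (⟨(e, d), hd⟩ :: v)
      exact ⟨i, by omega, fun k => b ((lab_ini (by exact he) _).1.1 k)⟩
  | succ j ih =>
    intro a
    obtain ⟨K, h⟩ := ih (a + 1)
    refine ⟨128 * K + 2, fun v => ?_⟩
    obtain _ | ⟨⟨⟨e, d⟩, hd⟩, v⟩ := v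
    · exact ⟨0, by simp, by simp [ac, lab, pat]⟩
    by_cases he : e = .e0
    swap
    · refine ⟨1, by simp, ?_⟩
      rw [pat, if_neg (fun k => absurd ((dvd_pow_self _ j.succ_ne_zero).trans k) (by decide))]
      exact (lab_ini (by exact he) _).2
    subst he
    by_cases k : d = 0
    swap; exact ⟨0, by simp, fun a => k (z _ hd v (by simpa [ac_zero, pat] using a))⟩
    subst k
    obtain ⟨i, i1, i2⟩ := h v
    refine ⟨128 * i, by omega, ?_⟩
    have := ac_z0 .e0 i (enc (a, 0, a, 0)) v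
    rw [show P .e0 * enc (a, 0, a, 0) = enc (a + 1, 0, a + 1, 0) by simp [enc, P]; ring, show Q .e0 = 1 from rfl,
      one_mul] at this
    push_cast
    rw [show (⟨(.e0, 0), hd⟩ : L) = z0 .e0 from rfl, this, lab]
    simp only [pat, pow_succ', mul_dvd_mul_iff_left (show (128 : ℤ) ≠ 0 by decide)] at i2 ⊢
    split_ifs at i2 ⊢ <;> simpa [δ, z0, src, tgt] using i2

end Pool.Agent.H.MP_374aea_al
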