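import Pool.Agent.H.MP_374aea_al.Vas

set_option autoImplicit false
set_option maxHeartbeats 400000

namespace Pool.Agent.H.MP_374aea_al

theorem ac_nz (e) {i g : ℤ} (hg : Odd g) (h : ¬ 128 ∣ i) (v) : ∃ d hd v', d ≠ 0 ∧ Q e ∣ d ∧
    ac (i * (Q e * g)) (z0 e :: v) = ⟨(e, d), hd⟩ :: v' := by
  refine ⟨_, _, _, fun k => h ((odd_dvd hg).1 ?_), ?_, rfl⟩
  · refine (mul_dvd_mul_iff_right (Q_pos e).ne').1 ((Int.dvd_of_emod_eq_zero k).trans (dvd_of_eq ?_))
    simp only [z0]; ring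
  · refine Int.dvd_of_emod_eq_zero ((Int.emod_emod_of_dvd _ (dvd_mul_left (Q e) 128)).trans ?_)
    exact Int.emod_eq_zero_of_dvd ⟨i * g, by simp only [z0]; ring⟩

def Long (s : St) (g : ℤ) (N : ℕ) : Prop := ∃ M, N ≤ M ∧ ∃ v, (∀ i, lab s (ac (i * g) v) ↔ ¬ 128 ^ M ∣ i) ∧
  ∀ n, (lab .ini (ac n v) ↔ lab .a (ac n v)) ∧ ¬ lab .zer (ac n v)

theorem Long.mono {s g N N'} (h : Long s g N) (l : N' ≤ N) : Long s g N' :=
  h.imp fun _ k => ⟨l.trans k.1, k.2⟩

theorem st (e) (he : e ≠ .e0) (c c' c₀ : Cf) (h1 : enc c = Q e * enc c₀) (h2 : enc c' = P e * enc c₀) {N}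
    (h : Long (tgt e) (enc c') N) : Long (src e) (enc c) (N + 1) := by
  obtain ⟨M, l, v, a, -⟩ := h
  refine ⟨M + 1, by omega, z0 e :: v, fun i => ?_, fun n => lab_ini (by exact he) _⟩
  rw [h1]
  by_cases k : 128 ∣ i
  · obtain ⟨i, rfl⟩ := k
    rw [ac_z0, ← h2, pow_succ', mul_dvd_mul_iff_left (by decide), ← a, lab]
    cases e <;> simp_all [δ, z0, src]
  · obtain ⟨d, hd, v', d1, d2, e1⟩ := ac_nz e (enc_odd c₀) k v
    rw [e1, lab, show δ (src e) e d = .on by cases e <;> simp_all [δ, src]]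
    exact iff_of_true (lab_on _) fun a => k ((dvd_pow_self _ M.succ_ne_zero).trans a)

theorem run0 (w z) (x : ℕ) : ∀ y, Long .a (enc (w, z, x, y)) x := by
  induction x with
  | zero => exact fun y => ⟨0, le_rfl, [], by simp [ac, lab], by simp [ac, lab]⟩
  | succ x ih =>
    exact fun y => st .aa (by simp) _ (w, z, x, y + 2) (w, z, x, y) (by simp [enc, Q]; ring)
      (by simp [enc, P]; ring) (ih _)

theorem loopA (w z N) (x : ℕ) : ∀ y, Long .a (enc (w, z, 0, y + 2 * x)) N → Long .a (enc (w, z, x, y)) N := by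
  induction x with
  | zero => exact fun y h => h
  | succ x ih =>
    exact fun y h => (st .aa (by simp) _ (w, z, x, y + 2) (w, z, x, y) (by simp [enc, Q]; ring)
      (by simp [enc, P]; ring) (ih _ (by rwa [show y + 2 + 2 * x = y + 2 * (x + 1) by ring]))).mono (by simp)

theorem loopB (w z N) (y : ℕ) : ∀ x, Long .a (enc (w, z, x + y, 0)) N → Long .b (enc (w, z, x, y)) N := by
  induction y with
  | zero => exact fun x h => (st .ba (by simp) _ _ (w, z, x, 0) (by simp [Q]) (by simp [P]) h).mono (by simp)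
  | succ y ih =>
    exact fun x h => (st .bb (by simp) _ (w, z, x + 1, y) (w, z, x, y) (by simp [enc, Q]; ring)
      (by simp [enc, P]; ring) (ih _ (by rwa [show x + 1 + y = x + (y + 1) by ring]))).mono (by simp)

theorem loopC (w N) (x : ℕ) : ∀ z y, Long .b (enc (w, z + x, 0, y + x)) N → Long .c (enc (w, z, x, y)) N := by
  induction x with
  | zero => exact fun z y h => (st .cb (by simp) _ _ (w, z, 0, y) (by simp [Q]) (by simp [P]) h).mono (by simp)
  | succ x ih =>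
    exact fun z y h => (st .cc (by simp) _ (w, z + 1, x, y + 1) (w, z, x, y) (by simp [enc, Q]; ring)
      (by simp [enc, P]; ring) (ih _ _ (by
        rwa [show z + 1 + x = z + (x + 1) by ring, show y + 1 + x = y + (x + 1) by ring]))).mono (by simp)

theorem expo (w N) (z : ℕ) : ∀ x, Long .a (enc (w, 0, x * 2 ^ z, 0)) N → Long .a (enc (w, z, x, 0)) N := by
  induction z with
  | zero => exact fun x h => by simpa using h
  | succ z ih =>
    exact fun x h => loopA _ _ _ _ _ ((st .ab (by simp) _ (w, z, 0, 0 + 2 * x) (w, z, 0, 0 + 2 * x)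
      (by simp [enc, Q]; ring) (by simp [P]) (loopB _ _ _ _ _ (ih _ (by
        rwa [show (0 + (0 + 2 * x)) * 2 ^ z = x * 2 ^ (z + 1) by ring])))).mono (by simp))

def tw : ℕ → ℕ → ℕ
  | 0, n => n
  | k + 1, n => tw k (n * 2 ^ n)

theorem tower (w : ℕ) : ∀ x, Long .a (enc (w, 0, x, 0)) (tw w x) := by
  induction w with
  | zero => exact fun x => run0 ..
  | succ w ih =>
    exact fun x => (st .ac (by simp) _ (w, 0, x, 0) (w, 0, x, 0) (by simp [enc, Q]; ring) (by simp [P])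
      (loopC _ _ _ _ _ (loopB _ _ _ _ _ (expo _ _ _ _ (by simpa using ih _))))).mono (by simp [tw])

theorem le_tw (k : ℕ) : ∀ n, n ≤ tw k n := by
  induction k with
  | zero => exact fun _ => le_rfl
  | succ k ih => exact fun n => (Nat.le_mul_of_pos_right _ (by positivity)).trans (ih _)

def Win (j M : ℕ) (g : ℤ) (v : List L) : Prop :=
  ∀ i, (lab .ini (ac (i * g) v) ↔ 128 ^ j ∣ i ∧ ¬ 128 ^ (j + M) ∣ i) ∧ (lab .zer (ac (i * g) v) ↔ ¬ 128 ^ j ∣ i)

theorem win_st {j M a v} (h : Win j M (enc (a + 1, 0, a + 1, 0)) v) : Win (j + 1) M (enc (a, 0, a, 0)) (z0 .e0 :: v) := by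
  intro i
  rw [← one_mul (enc _), show (1 : ℤ) = Q .e0 from rfl]
  by_cases k : 128 ∣ i
  · obtain ⟨i, rfl⟩ := k
    rw [ac_z0, show P .e0 * enc (a, 0, a, 0) = enc (a + 1, 0, a + 1, 0) by simp [enc, P]; ring, add_right_comm,
      pow_succ', pow_succ', mul_dvd_mul_iff_left (by decide), mul_dvd_mul_iff_left (by decide)]
    simpa [lab, δ, z0, src, tgt] using h i
  · obtain ⟨d, hd, v', d1, d2, e1⟩ := ac_nz .e0 (enc_odd (a, 0, a, 0)) k v
    have : ¬ 128 ^ (j + 1) ∣ i := fun a => k ((dvd_pow_self _ j.succ_ne_zero).trans a)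
    simp [e1, lab, δ, d1, src, lab_on, lab_off, this]

def ell (m : ℤ) (σ : St) (i : ℤ) : Prop := σ = .on ∨ (σ = .ini ∧ m ∣ i) ∨ (σ = .zer ∧ ¬ m ∣ i)

theorem window (j : ℕ) : ∃ v, ∀ σ (i : ℤ), i.natAbs < 128 ^ tw (j + 1) (j + 1) →
    (lab σ (ac i v) ↔ ell (128 ^ (j + 1)) σ i) := by
  obtain ⟨M, l, v, a, b⟩ := (show Long .a _ _ from tower (j + 1) (j + 1))
  have : ∀ k a, (∃ v, Win 0 M (enc (a + k, 0, a + k, 0)) v) → ∃ v, Win k M (enc (a, 0, a, 0)) v := fun k => by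
    induction k with
    | zero => exact fun _ => id
    | succ k ih => exact fun a h => (ih (a + 1) (by rwa [add_right_comm])).elim fun _ h => ⟨_, win_st h⟩
  obtain ⟨v, h⟩ := this j 1 ⟨v, fun i => by simp [(b _).1, (b _).2, add_comm 1 j, a]⟩
  have h := win_st h
  obtain ⟨M, rfl⟩ := Nat.exists_eq_succ_of_ne_zero (show M ≠ 0 by have := le_tw (j + 1) (j + 1); omega)
  refine ⟨ac (128 ^ (j + 1 + M)) (z0 .e0 :: v), fun σ i hi => ?_⟩
  have h := h (i + 128 ^ (j + 1 + M))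
  have e : (128 : ℤ) ^ (j + 1) ∣ i + 128 ^ (j + 1 + M) ↔ 128 ^ (j + 1) ∣ i :=
    dvd_add_left (pow_dvd_pow _ (by omega))
  have f : ¬ (128 : ℤ) ^ (j + 1 + (M + 1)) ∣ i + 128 ^ (j + 1 + M) := fun k => by
    have : 128 ^ tw (j + 1) (j + 1) ≤ 128 ^ (j + 1 + M) := Nat.pow_le_pow_right (by simp) (by omega)
    have t : ((128 ^ (j + 1 + M) : ℕ) : ℤ) = 128 ^ (j + 1 + M) := by simp
    have := Int.le_of_dvd (by omega) k
    rw [← add_assoc, pow_succ] at this
    omega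
  rw [show enc (0, 0, 0, 0) = 1 from rfl, mul_one, e] at h
  rw [← ac_add]
  cases σ
  case ini => simp [ell, h.1, f]
  case zer => simp [ell, h.2]
  all_goals simp [ell, ac, lab, δ, nx, z0, src, lab_on, lab_off]

end Pool.Agent.H.MP_374aea_al
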